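import Mathlib
import Pool.Agent.N753.DR.Stm7
import Pool.Agent.N572.DR.Inv

/-!
# Project PC: the height of the value of a polynomial in several variables (PC/HTMV, helper427)
-/

set_option autoImplicit false

namespace Pool.Agent.N427.PC.HTMV

open NumberField Module Height
open Pool.Agent.N753.DR
open Pool.Agent.N572.DR.Inv (ht_ext)

theorem t : StmHtMv := by
  intro k _ _ m G
  induction G using MvPolynomial.induction_on with
  | C a =>
    refine ⟨logHeight₁ a, zero_le_logHeight₁ _, ?_⟩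
    intro L _ _ _ x
    rw [MvPolynomial.aeval_C, ht_ext]
    have h5 : (finrank ℚ L : ℝ) = (finrank ℚ k : ℝ) * (finrank k L : ℝ) := by
      exact_mod_cast (Module.finrank_mul_finrank ℚ k L).symm
    have h4 : (1 : ℝ) ≤ (finrank ℚ k : ℝ) := by
      exact_mod_cast Nat.succ_le_of_lt (Module.finrank_pos (R := ℚ) (M := k))
    have h6 : (0 : ℝ) ≤ (finrank k L : ℝ) := Nat.cast_nonneg _
    have h7 : (0 : ℝ) ≤ ∑ i, logHeight₁ (x i) :=
      Finset.sum_nonneg fun i _ => zero_le_logHeight₁ _
    have h8 : (finrank k L : ℝ) ≤ ∑ i, logHeight₁ (x i) + finrank ℚ L := by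
      rw [h5]
      nlinarith
    have h9 := mul_le_mul_of_nonneg_left h8 (zero_le_logHeight₁ a)
    linarith [mul_comm (finrank k L : ℝ) (logHeight₁ a)]
  | add p q hp hq =>
    obtain ⟨C, hC0, hC⟩ := hp
    obtain ⟨C', hC0', hC'⟩ := hq
    have hl2 : 0 ≤ Real.log 2 := Real.log_nonneg (by norm_num)
    refine ⟨C + C' + Real.log 2, by positivity, ?_⟩
    intro L _ _ _ x
    rw [map_add]
    have h2 := logHeight₁_add_le (MvPolynomial.aeval x p) (MvPolynomial.aeval x q)
    rw [NumberField.totalWeight_eq_finrank] at h2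
    have h3 := hC L x
    have h4 := hC' L x
    have h7 : (0 : ℝ) ≤ ∑ i, logHeight₁ (x i) :=
      Finset.sum_nonneg fun i _ => zero_le_logHeight₁ _
    have h8 : 0 ≤ Real.log 2 * ∑ i, logHeight₁ (x i) := mul_nonneg hl2 h7
    linarith
  | mul_X p n hp =>
    obtain ⟨C, hC0, hC⟩ := hp
    refine ⟨C + 1, by positivity, ?_⟩
    intro L _ _ _ x
    rw [map_mul, MvPolynomial.aeval_X]
    have h2 := logHeight₁_mul_le (MvPolynomial.aeval x p) (x n)
    have h3 := hC L x
    have h4 : logHeight₁ (x n) ≤ ∑ i, logHeight₁ (x i) :=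
      Finset.single_le_sum (f := fun i => logHeight₁ (x i)) (fun i _ => zero_le_logHeight₁ _)
        (Finset.mem_univ n)
    have h6 : (0 : ℝ) ≤ (finrank ℚ L : ℝ) := Nat.cast_nonneg _
    linarith

end Pool.Agent.N427.PC.HTMV
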